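import Pool.Agent.MP_09973c_nt.H58.SpecA

set_option autoImplicit false

namespace Pool.Agent.MP_09973c_nt.H82

open Polynomial Finset Filter Classical Pool.Agent.MP_09973c_nt.H58

/-- Mahler type lemma. -/
theorem mah {κ : Type} (S : Finset κ) (A B : κ → ℂ) :
    ∃ τ : ℂ, ‖τ‖ = 1 ∧ ∏ l ∈ S, max ‖A l‖ ‖B l‖ ≤ ∏ l ∈ S, ‖A l + τ * B l‖ := by
  let P : κ → ℂ := fun l => if ‖B l‖ ≤ ‖A l‖ then A l else (starRingEnd ℂ) (B l)
  let Q : κ → ℂ := fun l => if ‖B l‖ ≤ ‖A l‖ then B l else (starRingEnd ℂ) (A l)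
  obtain ⟨z, hz, hmax⟩ := Complex.exists_mem_frontier_isMaxOn_norm
    (f := fun z => ∏ l ∈ S, (P l + z * Q l))
    (U := Metric.ball (0 : ℂ) 1) Metric.isBounded_ball ⟨0, by simp⟩
    (Differentiable.diffContOnCl (by fun_prop))
  rw [frontier_ball _ one_ne_zero] at hz
  have hz1 : ‖z‖ = 1 := by simpa using hz
  refine ⟨z, hz1, ?_⟩
  have h0 : ‖∏ l ∈ S, (P l + 0 * Q l)‖ ≤ ‖∏ l ∈ S, (P l + z * Q l)‖ :=
    hmax (subset_closure (by simp : (0 : ℂ) ∈ Metric.ball (0 : ℂ) 1))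
  rw [norm_prod, norm_prod] at h0
  convert h0 using 2 with l _ l _
  · simp only [P, zero_mul, add_zero]
    split_ifs with h
    · exact max_eq_left h
    · rw [Complex.norm_conj]; exact max_eq_right (le_of_not_ge h)
  · simp only [P, Q]
    split_ifs with h
    · rfl
    · have hzz : z * (starRingEnd ℂ) z = 1 := by
        rw [Complex.mul_conj, Complex.normSq_eq_norm_sq, hz1]; simp
      rw [← Complex.norm_conj ((starRingEnd ℂ) (B l) + _), ← one_mul ‖(starRingEnd ℂ) _‖, ← hz1,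
        ← norm_mul]
      congr 1
      simp only [map_add, map_mul, Complex.conj_conj]
      linear_combination (-A l) * hzz

theorem mah3 {κ : Type} (S : Finset κ) (A B C : κ → ℂ) :
    ∃ σ τ : ℂ, ‖σ‖ = 1 ∧ ‖τ‖ = 1 ∧
      ∏ l ∈ S, max (max ‖A l‖ ‖B l‖) ‖C l‖ ≤ ∏ l ∈ S, ‖A l + σ * B l + τ * C l‖ := by
  obtain ⟨σ, hσ, h1⟩ := mah (S.filter fun l => ‖C l‖ ≤ max ‖A l‖ ‖B l‖) A B
  obtain ⟨τ, hτ, h2⟩ := mah S (fun l => A l + σ * B l) C
  refine ⟨σ, τ, hσ, hτ, le_trans ?_ h2⟩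
  rw [← prod_filter_mul_prod_filter_not S fun l => ‖C l‖ ≤ max ‖A l‖ ‖B l‖,
    ← prod_filter_mul_prod_filter_not S (fun l => ‖C l‖ ≤ max ‖A l‖ ‖B l‖)
      fun l => max ‖A l + σ * B l‖ ‖C l‖]
  refine mul_le_mul ?_ ?_ (prod_nonneg fun l _ => by positivity)
    (prod_nonneg fun l _ => by positivity)
  · calc _ = ∏ l ∈ S.filter fun l => ‖C l‖ ≤ max ‖A l‖ ‖B l‖, max ‖A l‖ ‖B l‖ :=
          prod_congr rfl fun l hl => max_eq_left (mem_filter.1 hl).2
      _ ≤ _ := h1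
      _ ≤ _ := prod_le_prod (fun l _ => norm_nonneg _) fun l _ => le_max_left _ _
  · refine prod_le_prod (fun l _ => by positivity) fun l hl => ?_
    rw [max_eq_right (le_of_not_ge (mem_filter.1 hl).2)]
    exact le_max_right _ _

theorem cnt_frac {κ : Type} [Fintype κ] (S : Finset κ) (N' K : ℕ) (hS : S.card = N') (G : κ → Prop)
    [DecidablePred G] (h1 : Fintype.card κ ≤ K * (univ.filter G).card)
    (h2 : 2 * (K : ℝ) * ((Fintype.card κ : ℝ) - N') ≤ Fintype.card κ) (φ : κ → ℝ) (a : ℝ)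
    (ha : 0 ≤ a) (h0 : ∀ l, 0 ≤ φ l) (hφ : ∀ l, G l → a ≤ φ l) :
    a * Fintype.card κ ≤ 2 * K * ∑ l ∈ S, φ l := by
  have e1 : (univ.filter G).card ≤ (S.filter G).card + Sᶜ.card := by
    refine le_trans (card_le_card ?_) (card_union_le _ _)
    intro l hl
    by_cases h : l ∈ S
    · exact mem_union_left _ (mem_filter.2 ⟨h, (mem_filter.1 hl).2⟩)
    · exact mem_union_right _ (mem_compl.2 h)
  have e2 : S.card + Sᶜ.card = Fintype.card κ := card_add_card_compl S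
  have e3 : a * (S.filter G).card ≤ ∑ l ∈ S, φ l := by
    calc a * (S.filter G).card = ∑ _l ∈ S.filter G, a := by rw [sum_const, nsmul_eq_mul, mul_comm]
      _ ≤ ∑ l ∈ S.filter G, φ l := sum_le_sum fun l hl => hφ l (mem_filter.1 hl).2
      _ ≤ _ := sum_le_sum_of_subset_of_nonneg (filter_subset _ _) fun l _ _ => h0 l
  have e1' : ((univ.filter G).card : ℝ) ≤ (S.filter G).card + Sᶜ.card := by exact_mod_cast e1
  have e2' : (N' : ℝ) + Sᶜ.card = Fintype.card κ := by rw [← hS]; exact_mod_cast e2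
  have h1' : (Fintype.card κ : ℝ) ≤ K * (univ.filter G).card := by exact_mod_cast h1
  have hK : (0 : ℝ) ≤ K := Nat.cast_nonneg K
  have e4 : (Fintype.card κ : ℝ) ≤ 2 * K * (S.filter G).card := by
    have : (K : ℝ) * (univ.filter G).card ≤ K * ((S.filter G).card + Sᶜ.card) :=
      mul_le_mul_of_nonneg_left e1' hK
    have e5 : (Sᶜ.card : ℝ) = Fintype.card κ - N' := by linarith
    rw [e5] at this
    nlinarith
  calc a * Fintype.card κ ≤ a * (2 * K * (S.filter G).card) := mul_le_mul_of_nonneg_left e4 ha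
    _ = 2 * K * (a * (S.filter G).card) := by ring
    _ ≤ _ := mul_le_mul_of_nonneg_left e3 (by positivity)

theorem max_pow_eq (z : ℂ) (E : ℕ) (ρ : ℝ) (hρ : 0 ≤ ρ) :
    max ‖z ^ E‖ (Real.exp (E * ρ)) = Real.exp (E * max (lp z) ρ) := by
  have h1 : 1 ≤ Real.exp (E * ρ) := Real.one_le_exp (by positivity)
  have h2 : max ‖z ^ E‖ (Real.exp (E * ρ)) = max (max 1 ‖z ^ E‖) (Real.exp (E * ρ)) := by
    rw [max_comm 1, max_assoc, max_eq_right h1]
  rw [h2, ← exp_lp, lp_pow, mul_max_of_nonneg _ _ (Nat.cast_nonneg E),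
    Real.exp_monotone.map_max]

theorem large : LargeStmt := by
  intro κ _ N' E K x y ρ₁ ρ₂ Mx hEQ hρ hMx hx hK h1 h2
  obtain ⟨S₁, hS₁, hf⟩ := hEQ (fun _ => 1) (fun _ => one_pos)
  set c : ℝ := Real.exp (E * ρ₁) with hc
  have hc0 : 0 < c := Real.exp_pos _
  obtain ⟨S, hS, hh⟩ := hf ⟨C (c : ℂ), by simp⟩
  obtain ⟨τ, hτ, hm⟩ := mah S (fun l => y l ^ E) (fun _ => (c : ℂ))
  obtain ⟨S₂, hS₂, key⟩ := hh ⟨X ^ E + C (τ * c), by
    rw [natDegree_add_C]; exact natDegree_X_pow_le E⟩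
  have hcn : ‖(c : ℂ)‖ = c := by rw [Complex.norm_real, Real.norm_of_nonneg hc0.le]
  simp only [eval_C, eval_add, eval_pow, eval_X, div_one, hcn, prod_const, hS₁, hS] at key hm
  have k1 : ∏ l ∈ S, ‖y l ^ E + τ * c‖ ≤
      Real.exp (Fintype.card κ) * ∏ l ∈ S₂, ‖x l ^ E + τ * c‖ := by
    refine le_of_mul_le_mul_left (a := c ^ N') ?_ (by positivity)
    linarith
  have k2 : ∏ l ∈ S₂, ‖x l ^ E + τ * c‖ ≤ ∏ l ∈ S₂, Real.exp (1 + E * max (lp (x l)) ρ₁) := by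
    refine prod_le_prod (fun l _ => norm_nonneg _) fun l _ => ?_
    rw [Real.exp_add, ← max_pow_eq _ _ _ hρ, ← hc]
    have e1 := norm_add_le (x l ^ E) (τ * c)
    rw [norm_mul, hτ, one_mul, hcn] at e1
    have e2 := le_max_left ‖x l ^ E‖ c
    have e3 := le_max_right ‖x l ^ E‖ c
    have e4 : (2 : ℝ) ≤ Real.exp 1 := by linarith [Real.add_one_le_exp (1 : ℝ)]
    nlinarith
  have k3 : Real.exp (∑ l ∈ S, E * max (lp (y l)) ρ₁) ≤
      Real.exp (Fintype.card κ + ∑ l ∈ S₂, (1 + E * max (lp (x l)) ρ₁)) := by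
    rw [Real.exp_add, Real.exp_sum, Real.exp_sum]
    refine le_trans (le_of_eq ?_) (hm.trans (k1.trans
      (mul_le_mul_of_nonneg_left k2 (Real.exp_pos _).le)))
    exact prod_congr rfl fun l _ => (max_pow_eq _ _ _ hρ).symm
  rw [Real.exp_le_exp] at k3
  have hE : (0 : ℝ) ≤ E := Nat.cast_nonneg E
  have k4 := cnt_frac S N' K hS (fun l => ρ₂ ≤ lp (y l)) h1 h2
    (fun l => E * max (lp (y l)) ρ₁ - E * ρ₁) (8 * K) (by positivity)
    (fun l => sub_nonneg.2 (mul_le_mul_of_nonneg_left (le_max_right _ _) hE))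
    (fun l hl => by nlinarith [mul_le_mul_of_nonneg_left (hl.trans (le_max_left _ ρ₁)) hE])
  have k5 : ∑ l ∈ S₂, (E * max (lp (x l)) ρ₁ - E * ρ₁) ≤
      E * Mx * (univ.filter fun l => ρ₁ < lp (x l)).card := by
    calc _ ≤ ∑ l, (E * max (lp (x l)) ρ₁ - E * ρ₁) :=
          sum_le_sum_of_subset_of_nonneg (subset_univ _) fun l _ _ =>
            sub_nonneg.2 (mul_le_mul_of_nonneg_left (le_max_right _ _) hE)
      _ ≤ ∑ l, if ρ₁ < lp (x l) then E * Mx else 0 := by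
          refine sum_le_sum fun l _ => ?_
          split_ifs with h
          · rw [max_eq_left h.le]
            nlinarith [mul_le_mul_of_nonneg_left (hx l) hE, mul_nonneg hE hρ]
          · rw [max_eq_right (le_of_not_gt h), sub_self]
      _ = _ := by rw [← sum_filter, sum_const, nsmul_eq_mul, mul_comm]
  rw [sum_sub_distrib, sum_const, hS, nsmul_eq_mul] at k4
  rw [sum_sub_distrib, sum_const, hS₂, nsmul_eq_mul] at k5
  rw [sum_add_distrib, sum_const, hS₂, nsmul_eq_mul, mul_one] at k3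
  have hN : (N' : ℝ) ≤ Fintype.card κ := by rw [← hS]; exact_mod_cast card_le_univ S
  rcases Nat.eq_zero_or_pos K with rfl | hK0
  · have : Fintype.card κ = 0 := by omega
    rw [this, Nat.cast_zero]
    positivity
  · have hK' : (0 : ℝ) < K := by exact_mod_cast hK0
    have k6 : 4 * (Fintype.card κ : ℝ) ≤ ∑ l ∈ S, E * max (lp (y l)) ρ₁ - N' * (E * ρ₁) := by
      refine le_of_mul_le_mul_left (a := 2 * (K : ℝ)) ?_ (by positivity)
      linarith
    linarith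

theorem max_div (a b : ℂ) (ha : a ≠ 0) : max ‖b‖ ‖a‖ = ‖a‖ * Real.exp (lp (b / a)) := by
  have h : 0 < ‖a‖ := norm_pos_iff.2 ha
  rw [exp_lp, norm_div, mul_max_of_nonneg _ _ h.le, mul_one, mul_div_cancel₀ _ h.ne', max_comm]

theorem max3_div (a b c : ℂ) (ha : a ≠ 0) :
    max (max ‖a‖ ‖b‖) ‖c‖ ^ 2 = ‖a‖ ^ 2 * Real.exp (lp (b / a) + lp (c / a)) *
      Real.exp |lp (b / a) - lp (c / a)| := by
  have e : max (max ‖a‖ ‖b‖) ‖c‖ = max (max ‖b‖ ‖a‖) (max ‖c‖ ‖a‖) := by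
    rw [max_comm ‖b‖, max_comm ‖c‖, max_max_max_comm, max_self, max_assoc]
  rw [e, max_div a b ha, max_div a c ha, ← mul_max_of_nonneg _ _ (norm_nonneg a),
    ← Real.exp_monotone.map_max, mul_pow, mul_assoc, ← Real.exp_add, ← Real.exp_nat_mul]
  congr 2
  rcases le_total (lp (b / a)) (lp (c / a)) with h | h
  · rw [max_eq_right h, abs_of_nonpos (by linarith)]; push_cast; ring
  · rw [max_eq_left h, abs_of_nonneg (by linarith)]; push_cast; ring

theorem size : SizeStmt := by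
  intro κ _ _ N' K x y C₁ A hEQ hx hy hC h1 h2
  have hC0 : 0 ≤ C₁ := (abs_nonneg _).trans (hC (Classical.arbitrary κ))
  rcases le_or_gt A 0 with hA | hA
  · exact hA.trans (by positivity)
  set w : κ → ℝ := fun l => ‖x l 0‖ ^ 2 * Real.exp (lp (x l 1 / x l 0) + lp (x l 2 / x l 0))
    with hw
  have hw0 : ∀ l, 0 < w l := fun l => mul_pos (pow_pos (norm_pos_iff.2 (hx l)) 2) (Real.exp_pos _)
  obtain ⟨S₁, hS₁, hf⟩ := hEQ w hw0
  obtain ⟨τ, hτ, m1⟩ := mah S₁ (fun l => x l 1) (fun l => x l 0)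
  obtain ⟨τ', hτ', m2⟩ := mah S₁ (fun l => x l 2) (fun l => x l 0)
  obtain ⟨S, hS, hh⟩ := hf (![τ, 1, 0], ![τ', 0, 1])
  obtain ⟨σ, σ', hσ, hσ', m3⟩ := mah3 S (fun l => y l 0) (fun l => y l 1) (fun l => y l 2)
  obtain ⟨S₂, hS₂, key⟩ := hh (![1, σ, σ'], ![1, σ, σ'])
  simp only [Fin.sum_univ_three, Matrix.cons_val_zero, Matrix.cons_val_one, Matrix.cons_val,
    one_mul, zero_mul, add_zero, norm_mul] at key
  have k1 : 1 ≤ ∏ l ∈ S₁, ‖τ * x l 0 + x l 1‖ * ‖τ' * x l 0 + x l 2‖ / w l := by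
    rw [prod_div_distrib, one_le_div (prod_pos fun l _ => hw0 l),
      prod_mul_distrib (f := fun l => ‖τ * x l 0 + x l 1‖)]
    simp only [add_comm (τ * _), add_comm (τ' * _)]
    refine le_trans (le_of_eq ?_) (mul_le_mul m1 m2 (prod_nonneg fun l _ => by positivity)
      (prod_nonneg fun l _ => norm_nonneg _))
    rw [← prod_mul_distrib]
    refine prod_congr rfl fun l _ => ?_
    rw [max_div _ _ (hx l), max_div _ _ (hx l), hw]
    simp only [Real.exp_add]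
    ring
  set v : κ → ℝ := fun l => ‖y l 0‖ ^ 2 * Real.exp (lp (y l 1 / y l 0) + lp (y l 2 / y l 0))
    with hv
  have hv0 : ∀ l, 0 < v l := fun l => mul_pos (pow_pos (norm_pos_iff.2 (hy l)) 2) (Real.exp_pos _)
  have k2 : ∏ l ∈ S, v l * Real.exp |lp (y l 1 / y l 0) - lp (y l 2 / y l 0)| ≤
      ∏ l ∈ S, ‖y l 0 + σ * y l 1 + σ' * y l 2‖ * ‖y l 0 + σ * y l 1 + σ' * y l 2‖ := by
    rw [prod_mul_distrib (f := fun l => ‖y l 0 + σ * y l 1 + σ' * y l 2‖)]
    refine le_trans (le_of_eq ?_) (mul_le_mul m3 m3 (prod_nonneg fun l _ => by positivity)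
      (prod_nonneg fun l _ => norm_nonneg _))
    rw [← prod_mul_distrib]
    refine prod_congr rfl fun l _ => ?_
    rw [← sq, max3_div _ _ _ (hy l)]
  have e1 : (2 : ℝ) ≤ Real.exp 1 := by linarith [Real.add_one_le_exp (1 : ℝ)]
  have lin : ∀ (t a b : ℂ), ‖t‖ = 1 → a ≠ 0 →
      ‖t * a + b‖ ≤ Real.exp 1 * (‖a‖ * Real.exp (lp (b / a))) := by
    intro t a b ht ha
    rw [← max_div a b ha]
    have e2 := norm_add_le (t * a) b
    rw [norm_mul, ht, one_mul] at e2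
    have e3 := le_max_left ‖b‖ ‖a‖
    have e4 := le_max_right ‖b‖ ‖a‖
    nlinarith [norm_nonneg a]
  have k3 : ∏ l ∈ S, ‖τ * y l 0 + y l 1‖ * ‖τ' * y l 0 + y l 2‖ ≤ ∏ l ∈ S, v l * Real.exp 2 := by
    refine prod_le_prod (fun l _ => by positivity) fun l _ => ?_
    refine le_trans (mul_le_mul (lin τ _ _ hτ (hy l)) (lin τ' _ _ hτ' (hy l)) (norm_nonneg _)
      (by positivity)) (le_of_eq ?_)
    rw [hv, show (2 : ℝ) = 1 + 1 by norm_num]
    simp only [Real.exp_add]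
    ring
  have k4 : ∏ l ∈ S₂, ‖x l 0 + σ * x l 1 + σ' * x l 2‖ * ‖x l 0 + σ * x l 1 + σ' * x l 2‖ / w l ≤
      ∏ _l ∈ S₂, Real.exp (3 + C₁) := by
    refine prod_le_prod (fun l _ => div_nonneg (by positivity) (hw0 l).le) fun l _ => ?_
    rw [div_le_iff₀ (hw0 l)]
    have e2 : ‖x l 0 + σ * x l 1 + σ' * x l 2‖ ≤ 3 * max (max ‖x l 0‖ ‖x l 1‖) ‖x l 2‖ := by
      have e3 := norm_add₃_le (a := x l 0) (b := σ * x l 1) (c := σ' * x l 2)
      rw [norm_mul, norm_mul, hσ, hσ', one_mul, one_mul] at e3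
      have e4 := le_max_right (max ‖x l 0‖ ‖x l 1‖) ‖x l 2‖
      have e5 := le_max_left (max ‖x l 0‖ ‖x l 1‖) ‖x l 2‖
      have e6 := le_max_left ‖x l 0‖ ‖x l 1‖
      have e7 := le_max_right ‖x l 0‖ ‖x l 1‖
      linarith
    have e9 : (9 : ℝ) ≤ Real.exp 3 := by
      have : Real.exp 3 = Real.exp 1 ^ 3 := by rw [← Real.exp_nat_mul]; norm_num
      rw [this]
      have h3 := Real.exp_one_gt_d9
      calc (9 : ℝ) ≤ 2.7 ^ 3 := by norm_num
        _ ≤ _ := pow_le_pow_left₀ (by norm_num) (by linarith) 3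
    calc _ ≤ (3 * max (max ‖x l 0‖ ‖x l 1‖) ‖x l 2‖) * (3 * max (max ‖x l 0‖ ‖x l 1‖) ‖x l 2‖) :=
          mul_le_mul e2 e2 (norm_nonneg _) (by positivity)
      _ = 9 * Real.exp |lp (x l 1 / x l 0) - lp (x l 2 / x l 0)| * w l := by
          rw [hw]; simp only []; linear_combination 9 * max3_div _ (x l 1) (x l 2) (hx l)
      _ ≤ _ := by
          rw [Real.exp_add]
          exact mul_le_mul_of_nonneg_right (mul_le_mul e9 (Real.exp_le_exp.2 (hC l))
            (Real.exp_pos _).le (Real.exp_pos _).le) (hw0 l).le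
  have hP : 0 < ∏ l ∈ S, v l := prod_pos fun l _ => hv0 l
  have k5 : Real.exp (∑ l ∈ S, |lp (y l 1 / y l 0) - lp (y l 2 / y l 0)|) ≤
      Real.exp (Fintype.card κ + N' * 2 + N' * (3 + C₁)) := by
    refine le_of_mul_le_mul_left (a := ∏ l ∈ S, v l) ?_ hP
    rw [prod_mul_distrib, ← Real.exp_sum] at k2
    rw [prod_mul_distrib (f := v), prod_const, hS, ← Real.exp_nat_mul] at k3
    rw [prod_const, hS₂, ← Real.exp_nat_mul] at k4
    calc _ ≤ _ := k2
      _ ≤ _ := le_mul_of_one_le_left (prod_nonneg fun l _ => by positivity) k1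
      _ ≤ _ := key
      _ ≤ Real.exp (Fintype.card κ) * ((∏ l ∈ S, v l) * Real.exp (N' * 2)) *
          Real.exp (N' * (3 + C₁)) :=
          mul_le_mul (mul_le_mul_of_nonneg_left k3 (Real.exp_pos _).le) k4
            (prod_nonneg fun l _ => div_nonneg (by positivity) (hw0 l).le) (by positivity)
      _ = _ := by rw [Real.exp_add, Real.exp_add]; ring
  rw [Real.exp_le_exp] at k5
  have k6 := cnt_frac S N' K hS (fun l => A ≤ |lp (y l 1 / y l 0) - lp (y l 2 / y l 0)|) h1 h2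
    (fun l => |lp (y l 1 / y l 0) - lp (y l 2 / y l 0)|) A hA.le (fun l => abs_nonneg _)
    (fun l hl => hl)
  have hN : (N' : ℝ) ≤ Fintype.card κ := by rw [← hS]; exact_mod_cast card_le_univ S
  have hN0 : (0 : ℝ) < Fintype.card κ := by exact_mod_cast Fintype.card_pos
  have hK : (0 : ℝ) ≤ K := Nat.cast_nonneg K
  refine le_of_mul_le_mul_right (a := (Fintype.card κ : ℝ)) (k6.trans ?_) hN0
  rw [mul_assoc (2 * (K : ℝ))]
  refine mul_le_mul_of_nonneg_left (k5.trans ?_) (by positivity)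
  nlinarith [mul_le_mul_of_nonneg_right hN hC0]

end Pool.Agent.MP_09973c_nt.H82
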