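import Pool.Agent.MP_09973c_nt.H58.SpecF
import Pool.Agent.MP_09973c_nt.H58.GB

/-!
Counting conjugates of radical towers with prescribed residues.
-/

set_option autoImplicit false

namespace Pool.Agent.MP_09973c_nt.H82

open Polynomial Finset IntermediateField Classical Pool.Agent.MP_09973c_nt.H58

section Cov

variable {G ι : Type} [Group G]

/-- The elements of `G₀` with property `P` lie in at most `m` cosets of `S'`. -/
def Cov (G₀ S' : Subgroup G) (P : G → Prop) (m : ℕ) : Prop :=
  ∃ T : Finset G, T.card ≤ m ∧ (∀ t ∈ T, t ∈ G₀) ∧ ∀ g ∈ G₀, P g → ∃ t ∈ T, t⁻¹ * g ∈ S'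

theorem Cov.mono {G₀ S' S'' : Subgroup G} {P Q : G → Prop} {m : ℕ} (h : Cov G₀ S' P m)
    (hS : S' ≤ S'') (hQ : ∀ g, Q g → P g) : Cov G₀ S'' Q m := by
  obtain ⟨T, h1, h2, h3⟩ := h
  refine ⟨T, h1, h2, fun g hg hq => ?_⟩
  obtain ⟨t, ht, h4⟩ := h3 g hg (hQ g hq)
  exact ⟨t, ht, hS h4⟩

theorem cov_init (G₀ S' : Subgroup G) (h : S'.relIndex G₀ ≠ 0) :
    Cov G₀ S' (fun _ => True) (S'.relIndex G₀) := by
  obtain ⟨δ, hδ⟩ := exists_avg G₀ S' h
  refine ⟨univ.image δ, card_image_le.trans (by simp), fun t ht => ?_, fun g hg _ => ?_⟩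
  · obtain ⟨j, -, rfl⟩ := mem_image.1 ht
    exact hδ.1 j
  · obtain ⟨j, hj, -⟩ := hδ.2 g hg
    exact ⟨δ j, mem_image_of_mem _ (mem_univ j), hj⟩

theorem Cov.count [Fintype ι] {G₀ S S' : Subgroup G} {γ : ι → G} {P : G → Prop} {m : ℕ}
    (hc : Cov G₀ S' P m) (h : IsAvg G₀ S γ) (hS : S ≤ S') :
    (univ.filter fun i => P (γ i)).card * S'.relIndex G₀ ≤ m * Fintype.card ι := by
  obtain ⟨T, h1, h2, h3⟩ := hc
  have h4 : (univ.filter fun i => P (γ i)) ⊆
      T.biUnion fun t => univ.filter fun i => t⁻¹ * γ i ∈ S' := by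
    intro i hi
    obtain ⟨t, ht, h5⟩ := h3 _ (h.1 i) (mem_filter.1 hi).2
    exact mem_biUnion.2 ⟨t, ht, mem_filter.2 ⟨mem_univ _, h5⟩⟩
  refine (Nat.mul_le_mul_right _ ((card_le_card h4).trans card_biUnion_le)).trans ?_
  rw [sum_mul, sum_congr rfl fun t ht => h.coset hS (h2 t ht), sum_const, smul_eq_mul]
  exact Nat.mul_le_mul_right _ h1

end Cov

variable {k Ω : Type} [Field k] [Field Ω] [Algebra k Ω]

theorem Cov.step {G₀ : Subgroup (Ω ≃ₐ[k] Ω)} {S : Set Ω} {P : (Ω ≃ₐ[k] Ω) → Prop} {m e : ℕ}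
    (h : Cov G₀ (Fix k S) P m) (z : Ω) (Y : (Ω ≃ₐ[k] Ω) → Finset Ω) (hY : ∀ t, (Y t).card ≤ e)
    (hz : ∀ t g, P g → t⁻¹ * g ∈ Fix k S → g z ∈ Y t) :
    Cov G₀ (Fix k (insert z S)) P (m * e) := by
  obtain ⟨T, h1, h2, h3⟩ := h
  have key : ∀ t y, ∃ g', t ∈ G₀ → g' ∈ G₀ ∧ ∀ g ∈ G₀, t⁻¹ * g ∈ Fix k S → g z = y →
      g'⁻¹ * g ∈ Fix k (insert z S) := by
    intro t y
    by_cases he : ∃ g' ∈ G₀, t⁻¹ * g' ∈ Fix k S ∧ g' z = y
    · obtain ⟨g', h4, h5, h6⟩ := he
      refine ⟨g', fun _ => ⟨h4, fun g _ h7 h8 => mem_Fix.2 fun x hx => ?_⟩⟩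
      rcases hx with rfl | hx
      · simp [h8, ← h6]
      · have := (Fix k S).mul_mem ((Fix k S).inv_mem h5) h7
        rw [show (t⁻¹ * g')⁻¹ * (t⁻¹ * g) = g'⁻¹ * g by group] at this
        exact mem_Fix.1 this x hx
    · exact ⟨t, fun ht => ⟨ht, fun g hg h7 h8 => absurd ⟨g, hg, h7, h8⟩ he⟩⟩
  choose c hc using key
  refine ⟨T.biUnion fun t => (Y t).image (c t), card_biUnion_le.trans ?_, fun g hg => ?_,
    fun g hg hp => ?_⟩
  · refine (sum_le_card_nsmul _ _ e fun t _ => card_image_le.trans (hY t)).trans ?_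
    exact Nat.mul_le_mul_right _ h1
  · obtain ⟨t, ht, hg⟩ := mem_biUnion.1 hg
    obtain ⟨y, -, rfl⟩ := mem_image.1 hg
    exact (hc t y (h2 t ht)).1
  · obtain ⟨t, ht, h4⟩ := h3 g hg hp
    exact ⟨c t (g z), mem_biUnion.2 ⟨t, ht, mem_image_of_mem _ (hz t g hp h4)⟩,
      (hc t _ (h2 t ht)).2 g hg h4 rfl⟩

theorem red_sum {P : Plc k Ω} {α : Type} (T : Finset α) (f : α → Ω) (c : α → k)
    (h : ∀ a ∈ T, P.Red (f a) (c a)) : P.Red (∑ a ∈ T, f a) (∑ a ∈ T, c a) := by
  induction T using Finset.induction_on with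
  | empty => simpa using Plc.red_const (P := P) 0
  | insert a T ha ih =>
    rw [sum_insert ha, sum_insert ha]
    exact (h a (mem_insert_self _ _)).add (ih fun b hb => h b (mem_insert_of_mem hb))

theorem eq_of_red [CharZero k] {P : Plc k Ω} {y y' : Ω} {β : k} {r : ℕ} (hr : 0 < r)
    (h : y ^ r = y' ^ r) (hy : P.Red y β) (hy' : P.Red y' β) (hβ : β ≠ 0) : y = y' := by
  have h1 := red_sum (P := P) (range r) (fun i => y ^ i * y' ^ (r - 1 - i))
    (fun i => β ^ i * β ^ (r - 1 - i)) fun i _ => (hy.pow i).mul (hy'.pow _)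
  rw [geom_sum₂_self] at h1
  have h2 := h1.eq_one (mul_ne_zero (by exact_mod_cast hr.ne') (pow_ne_zero _ hβ))
  have h3 := geom_sum₂_mul y y' r
  rw [h, sub_self, mul_eq_zero] at h3
  rcases h3 with h3 | h3
  · rw [h3] at h2; simp at h2
  · exact sub_eq_zero.1 h3

omit [Field Ω] in
theorem lv_succ (w : ℕ → Ω) (l : ℕ) : lv w (l + 1) = insert (w (l + 1)) (lv w l) := by
  rw [lv, lv, ← Set.image_insert_eq]
  congr 1
  ext x; simp only [Set.mem_Iic, Set.mem_insert_iff]; omega

omit [Field Ω] in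
theorem mem_lv (w : ℕ → Ω) {l i : ℕ} (h : l ≤ i) : w l ∈ lv w i := ⟨l, h, rfl⟩

theorem zeros_succ (β : ℕ → k) (l : ℕ) :
    ((Icc 1 (l + 1)).filter fun l => β l = 0).card =
      ((Icc 1 l).filter fun l => β l = 0).card + if β (l + 1) = 0 then 1 else 0 := by
  rw [← insert_Icc_right_eq_Icc_add_one (by omega), filter_insert]
  split_ifs
  · rw [card_insert_of_notMem (by simp)]
  · rfl

theorem pow_mem_adj {r s J : ℕ} {S₀ : Set Ω} (A : Tw k r s J S₀) (S : Set Ω) {l : ℕ}
    (hl : l < J) : A.w (l + 1) ^ r ∈ adjoin k (S ∪ lv A.w l) := by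
  rw [A.hw l hl]
  exact add_mem (pow_mem (subset_adjoin k (S ∪ lv A.w l) (Or.inr (mem_lv _ le_rfl))) _)
    ((adjoin k _).algebraMap_mem _)

theorem tower_cov [CharZero k] {r s J : ℕ} {S₀ : Set Ω} (A : Tw k r s J S₀) (hr : 0 < r)
    (P : Plc k Ω) (β : ℕ → k) {G₀ : Subgroup (Ω ≃ₐ[k] Ω)} {S : Set Ω} (hb : A.b ∈ S)
    {Q : (Ω ≃ₐ[k] Ω) → Prop} {m : ℕ} (h : Cov G₀ (Fix k S) Q m) :
    ∀ j ≤ J, Cov G₀ (Fix k (S ∪ lv A.w j)) (fun g => Q g ∧ ∀ l ≤ j, P.Red (g (A.w l)) (β l))
      (m * r ^ ((Icc 1 j).filter fun l => β l = 0).card) := by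
  intro j
  induction j with
  | zero =>
    intro _
    simp only [show Icc 1 0 = (∅ : Finset ℕ) by simp, filter_empty, card_empty, pow_zero, mul_one]
    refine h.mono (fun g hg => mem_Fix.2 fun x hx => ?_) fun g hg => hg.1
    rcases hx with hx | ⟨l, hl, rfl⟩
    · exact mem_Fix.1 hg x hx
    · rw [Nat.le_zero.1 hl, A.h0, map_mul, AlgEquiv.commutes, mem_Fix.1 hg _ hb]
  | succ j ih =>
    intro hj
    have h1 := (ih (by omega)).mono (S'' := Fix k (S ∪ lv A.w j))
      (Q := fun g => Q g ∧ ∀ l ≤ j + 1, P.Red (g (A.w l)) (β l)) le_rfl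
      fun g hg => ⟨hg.1, fun l hl => hg.2 l (by omega)⟩
    rw [zeros_succ, pow_add, ← mul_assoc, lv_succ, Set.union_insert]
    refine h1.step (A.w (j + 1)) (fun t => (nthRoots r (t (A.w (j + 1) ^ r))).toFinset.filter
      fun y => P.Red y (β (j + 1))) (fun t => ?_) fun t g hg ht => ?_
    · split_ifs with h0
      · rw [pow_one]
        exact (card_filter_le _ _).trans
          ((Multiset.toFinset_card_le _).trans (card_nthRoots _ _))
      · rw [pow_zero]
        refine card_le_one.2 fun y hy y' hy' => ?_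
        rw [mem_filter, Multiset.mem_toFinset, mem_nthRoots hr] at hy hy'
        exact eq_of_red hr (hy.1.trans hy'.1.symm) hy.2 hy'.2 h0
    · rw [mem_filter, Multiset.mem_toFinset, mem_nthRoots hr]
      refine ⟨?_, hg.2 _ le_rfl⟩
      have := fix_of_mem_adjoin ht (pow_mem_adj A S (l := j) (by omega))
      rw [← map_pow, ← congrArg t this, ← AlgEquiv.mul_apply, mul_inv_cancel_left]

theorem cnt (hDL : DLStmt) : CntStmt := by
  intro k Ω _ _ _ _ _ _ r s J Δ S₀ A hr hs hrs hB P S n γ hγ i hi β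
  have hr0 : 0 < r := by omega
  refine ⟨fun hS h0 hβ => ?_, fun B j hj β' hS => ?_⟩
  · have hind := (hDL k Ω r s J Δ S₀ A A hr hs hrs hB).2.2.2
    have halg := (hB.tr _ A.hb).2
    have key : ∀ l ≤ i, n * r ^ ((Icc 1 l).filter fun l => β l = 0).card ≤
        (univ.filter fun x => ∀ m ≤ l, P.Red (γ x (A.w m)) (β m)).card * r ^ l := by
      intro l
      induction l with
      | zero =>
        intro _
        rw [filter_true_of_mem (s := univ) fun x _ m hm => by
          rw [Nat.le_zero.1 hm, A.h0, map_mul, AlgEquiv.commutes, mem_Fix.1 (hγ.1 x) _ rfl,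
            ← A.h0]
          exact h0]
        simp
      | succ l ih =>
        intro hl
        have ih := ih (by omega)
        have hpow : ∀ g : Ω ≃ₐ[k] Ω, P.Red (g (A.w l)) (β l) →
            P.Red (g (A.w (l + 1)) ^ r) (β (l + 1) ^ r) := fun g hg => by
          rw [← map_pow, A.hw l (by omega), map_add, map_pow, AlgEquiv.commutes, hβ l (by omega)]
          exact (hg.pow s).add (Plc.red_const _)
        rw [zeros_succ]
        split_ifs with hz
        · rw [pow_succ, pow_succ, ← mul_assoc, ← mul_assoc]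
          refine Nat.mul_le_mul_right _ (ih.trans (Nat.mul_le_mul_right _
            (card_le_card fun x hx => ?_)))
          simp only [mem_filter, mem_univ, true_and] at hx ⊢
          intro m hm
          rcases Nat.lt_or_ge m (l + 1) with h1 | h1
          · exact hx m (by omega)
          · have h2 := hpow _ (hx l le_rfl)
            rw [hz, zero_pow hr0.ne', Plc.red_zero, map_pow] at h2
            rw [show m = l + 1 by omega, hz, Plc.red_zero]
            exact (pow_lt_one_iff hr0.ne').1 h2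
        · have hmem := pow_mem_adj A {A.b} (l := l) (by omega)
          have h1 := hγ.lift (S₃ := Fix k ({A.b} ∪ lv A.w (l + 1)))
            (S' := Fix k ({A.b} ∪ lv A.w l)) (n := r)
            (hS.trans (Fix_anti (Set.union_subset_union_right _
              (Set.image_mono (Set.Iic_subset_Iic.2 hl)))))
            (Fix_anti (Set.union_subset_union_right _
              (Set.image_mono (Set.Iic_subset_Iic.2 (Nat.le_succ l)))))
            (Fix_anti Set.subset_union_left)
            (by rw [lv_succ, Set.union_insert]; exact (relIndex_root hr0 hmem).2)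
            (fun g => ∀ m ≤ l, P.Red (g (A.w m)) (β m))
            (fun g => ∀ m ≤ l + 1, P.Red (g (A.w m)) (β m))
            (fun g t ht hg m hm => by
              rw [AlgEquiv.mul_apply, mem_Fix.1 ht _ (Or.inr (mem_lv _ hm))]
              exact hg m hm)
            (fun g _ hg => by
              have h2 := hpow _ (hg l le_rfl)
              have h3 : P.ν (g (A.w (l + 1))) ≤ 1 := by
                have := h2.le_one
                rw [map_pow] at this
                exact (pow_le_one_iff hr0.ne').1 this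
              obtain ⟨c, hc⟩ := P.res _ h3
              have h4 : c ^ r = β (l + 1) ^ r := (Plc.Red.pow hc r).unique h2
              have hc0 : c ≠ 0 := by
                rintro rfl
                rw [zero_pow hr0.ne'] at h4
                exact hz (pow_eq_zero_iff hr0.ne' |>.1 h4.symm)
              obtain ⟨t, ht, h5⟩ := exists_rot
                (isAlgebraic_mono (S := {A.b}) (S' := {A.b} ∪ lv A.w l)
                  (fun x hx => subset_adjoin k _ (Or.inl hx)) halg) hr0 hmem
                (hind l (by omega)) (y := algebraMap k Ω (β (l + 1) / c) * A.w (l + 1)) (by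
                  rw [mul_pow, ← map_pow, div_pow, h4, div_self (pow_ne_zero _ hz), map_one,
                    one_mul])
              refine ⟨t, ht, fun m hm => ?_⟩
              rw [AlgEquiv.mul_apply]
              rcases Nat.lt_or_ge m (l + 1) with h6 | h6
              · rw [mem_Fix.1 ht _ (Or.inr (mem_lv _ (by omega)))]
                exact hg m (by omega)
              · rw [show m = l + 1 by omega, h5, map_mul, AlgEquiv.commutes]
                have := (Plc.red_const (P := P) (β (l + 1) / c)).mul hc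
                rwa [div_mul_cancel₀ _ hc0] at this)
          rw [add_zero, pow_succ]
          refine ih.trans ?_
          rw [mul_comm (r ^ l), ← mul_assoc, mul_comm _ r]
          refine Nat.mul_le_mul_right _ ?_
          convert h1
    exact key i le_rfl
  · have hd := (hB.deg _ A.hb).1
    have h1 := tower_cov B hr0 P β' (Or.inl B.hb)
      (tower_cov A hr0 P β A.hb (cov_init (Fix k {A.b}) (Fix k S₀) hd) i hi) j hj
    have h2 := h1.count hγ hS
    rw [← Subgroup.relIndex_mul_relIndex _ (Fix k S₀) _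
      (Fix_anti (Set.subset_union_left.trans Set.subset_union_left))
      (Fix_anti (Set.singleton_subset_iff.2 A.hb)), Fintype.card_fin] at h2
    refine Nat.le_of_mul_le_mul_right ?_ (Nat.pos_of_ne_zero hd)
    simp only [true_and] at h2
    rw [mul_assoc, pow_add]
    refine le_of_le_of_eq (by convert h2 using 2; rfl) (by ring)

end Pool.Agent.MP_09973c_nt.H82
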